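import Mathlib

set_option autoImplicit false

namespace Pool.Agent.Results.MP_dd3b7d_gt.Counterexample

open Set Topology TopologicalSpace

/-- Scott open subsets of a poset -/
def ScottOpen {P : Type} [PartialOrder P] (U : Set P) : Prop :=
  IsUpperSet U ∧ ∀ D : Set P, D.Nonempty → DirectedOn (· ≤ ·) D →
    ∀ a, IsLUB D a → a ∈ U → (D ∩ U).Nonempty

/-- the upper topology of a poset -/
@[reducible] def upperTop (P : Type) [PartialOrder P] : TopologicalSpace P :=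
  generateFrom {U | ∃ x : P, U = (Iic x)ᶜ}

/-- the upper and the Scott topology of the lattice of open sets coincide -/
def CoConsonant (X : Type) [TopologicalSpace X] : Prop :=
  ∀ F : Set (Opens X), IsOpen[upperTop (Opens X)] F ↔ ScottOpen F

/-- the nonempty compact saturated sets -/
def Smyth (X : Type) [TopologicalSpace X] : Type :=
  {K : Set X // K.Nonempty ∧ IsCompact K ∧ K = ⋂₀ {U | IsOpen U ∧ K ⊆ U}}

/-- the upper Vietoris topology -/
instance (X : Type) [TopologicalSpace X] : TopologicalSpace (Smyth X) :=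
  generateFrom {W | ∃ U : Set X, IsOpen U ∧ W = {K : Smyth X | K.1 ⊆ U}}

theorem scott_of_upper {P : Type} [PartialOrder P] {F : Set P} (h : IsOpen[upperTop P] F) :
    ScottOpen F := by
  induction h with
  | basic s hs =>
    obtain ⟨x, rfl⟩ := hs
    refine ⟨(isLowerSet_Iic x).compl, fun D _ _ a ha haU => ?_⟩
    by_contra h
    rw [not_nonempty_iff_eq_empty, ← disjoint_iff_inter_eq_empty,
      disjoint_compl_right_iff_subset] at h
    exact haU (ha.2 h)
  | univ => exact ⟨isUpperSet_univ, fun D hD _ _ _ _ => by simpa using hD⟩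
  | inter s t _ _ hU hV =>
    refine ⟨hU.1.inter hV.1, fun D hD hd a ha haU => ?_⟩
    obtain ⟨x, hx, hxU⟩ := hU.2 D hD hd a ha haU.1
    obtain ⟨y, hy, hyV⟩ := hV.2 D hD hd a ha haU.2
    obtain ⟨z, hz, h1, h2⟩ := hd x hx y hy
    exact ⟨z, hz, hU.1 h1 hxU, hV.1 h2 hyV⟩
  | sUnion S _ hS =>
    refine ⟨isUpperSet_sUnion fun U hU => (hS U hU).1, ?_⟩
    rintro D hD hd a ha ⟨U, hU, haU⟩
    obtain ⟨x, hx, hxU⟩ := (hS U hU).2 D hD hd a ha haU
    exact ⟨x, hx, U, hU, hxU⟩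

theorem pt_open {Y : Type} [TopologicalSpace Y] (y : Y) :
    IsOpen[upperTop (Opens Y)] {V : Opens Y | y ∈ V} := by
  refine isOpen_generateFrom_of_mem ⟨⟨(closure {y})ᶜ, isClosed_closure.isOpen_compl⟩, ?_⟩
  ext V
  constructor
  · intro hy h
    exact h hy (subset_closure rfl)
  · intro h
    by_contra hy
    refine h fun z hz hz' => hy ?_
    obtain ⟨w, hw, rfl⟩ := mem_closure_iff.1 hz' V V.isOpen hz
    exact hw

/-- every c-space is co-consonant -/
theorem co_of_c {Y : Type} [TopologicalSpace Y]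
    (h : ∀ (y : Y) (U : Set Y), IsOpen U → y ∈ U →
      ∃ z ∈ U, ∃ W, IsOpen W ∧ y ∈ W ∧ ∀ V, IsOpen V → z ∈ V → W ⊆ V) : CoConsonant Y := by
  intro F
  refine ⟨scott_of_upper, fun hF => ?_⟩
  let _ := upperTop (Opens Y)
  rw [isOpen_iff_forall_mem_open]
  intro U hU
  let D : Set (Opens Y) := {W | ∃ T : Set Y, T.Finite ∧ T ⊆ U ∧ ∀ V : Opens Y, T ⊆ V → W ≤ V}
  obtain ⟨W, ⟨T, hT, hTU, hW⟩, hWF⟩ := hF.2 D ⟨⊥, ∅, finite_empty, empty_subset _, fun _ _ => bot_le⟩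
    (by
      rintro W ⟨T, h1, h2, h3⟩ W' ⟨T', k1, k2, k3⟩
      exact ⟨W ⊔ W', ⟨T ∪ T', h1.union k1, union_subset h2 k2, fun V hV =>
        sup_le (h3 V (subset_union_left.trans hV)) (k3 V (subset_union_right.trans hV))⟩,
        le_sup_left, le_sup_right⟩) U (by
      refine ⟨fun W ⟨T, _, h2, h3⟩ => h3 U h2, fun b hb y hy => ?_⟩
      obtain ⟨z, hz, W, h1, h2, h3⟩ := h y U U.isOpen hy
      exact hb (show (⟨W, h1⟩ : Opens Y) ∈ D from ⟨{z}, finite_singleton z,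
        singleton_subset_iff.2 hz, fun V hV => h3 V V.isOpen (hV rfl)⟩) h2) hU
  refine ⟨⋂ y ∈ T, {V : Opens Y | y ∈ V}, fun V hV => hF.1 (hW V fun y hy => ?_) hWF,
    hT.isOpen_biInter fun y _ => pt_open y, mem_iInter₂.2 fun y hy => hTU hy⟩
  exact mem_iInter₂.1 hV y hy

theorem sat {X : Type} [TopologicalSpace X] [T1Space X] (K : Set X) :
    K = ⋂₀ {U | IsOpen U ∧ K ⊆ U} := by
  refine Subset.antisymm (fun x hx U hU => hU.2 hx) fun x hx => ?_
  by_contra h
  exact hx {x}ᶜ ⟨isOpen_compl_singleton, fun y hy h' => h (h' ▸ hy)⟩ rfl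

theorem smyth_nhds {X : Type} [TopologicalSpace X] {O : Set (Smyth X)} (hO : IsOpen O) :
    ∀ K ∈ O, ∃ U, IsOpen U ∧ K.1 ⊆ U ∧ {L : Smyth X | L.1 ⊆ U} ⊆ O := by
  induction hO with
  | basic s hs =>
    obtain ⟨U, hU, rfl⟩ := hs
    exact fun K hK => ⟨U, hU, hK, Subset.rfl⟩
  | univ => exact fun K _ => ⟨univ, isOpen_univ, subset_univ _, subset_univ _⟩
  | inter s t _ _ h1 h2 =>
    intro K hK
    obtain ⟨U, a1, a2, a3⟩ := h1 K hK.1
    obtain ⟨V, b1, b2, b3⟩ := h2 K hK.2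
    exact ⟨U ∩ V, a1.inter b1, subset_inter a2 b2, fun L hL =>
      ⟨a3 (hL.trans inter_subset_left), b3 (hL.trans inter_subset_right)⟩⟩
  | sUnion S _ hS =>
    rintro K ⟨s, hs, hK⟩
    obtain ⟨U, a1, a2, a3⟩ := hS s hs K hK
    exact ⟨U, a1, a2, a3.trans (subset_sUnion_of_mem hs)⟩

theorem smyth_co (X : Type) [TopologicalSpace X] [T1Space X] [LocallyCompactSpace X] :
    CoConsonant (Smyth X) := by
  refine co_of_c fun K O hO hK => ?_
  obtain ⟨U, a1, a2, a3⟩ := smyth_nhds hO K hK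
  obtain ⟨L, b1, b2, b3⟩ := exists_compact_between K.2.2.1 a1 a2
  refine ⟨⟨L, K.2.1.mono (b2.trans interior_subset), b1, sat L⟩, a3 b3,
    {M | M.1 ⊆ interior L}, isOpen_generateFrom_of_mem ⟨_, isOpen_interior, rfl⟩, b2,
    fun V hV hL M hM => ?_⟩
  obtain ⟨U', -, c2, c3⟩ := smyth_nhds hV _ hL
  exact c3 (Subset.trans (Subset.trans hM interior_subset) c2)

theorem not_co (X : Type) [TopologicalSpace X] [T1Space X] [CompactSpace X] [Infinite X] :
    ¬ CoConsonant X := by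
  intro h
  have h1 : IsOpen[upperTop (Opens X)] ({⊤} : Set (Opens X)) := by
    refine (h _).2 ⟨fun a b hab ha => top_le_iff.1 (mem_singleton_iff.1 ha ▸ hab), ?_⟩
    rintro D hD hd _ ha rfl
    have := hD.to_subtype
    obtain ⟨V, hV⟩ := isCompact_univ.elim_directed_cover (fun V : D => (V.1 : Set X))
      (fun V => V.1.isOpen) (by
        intro x _
        have : x ∈ sSup D := by
          rw [ha.sSup_eq]
          trivial
        obtain ⟨V, hV, hx⟩ := Opens.mem_sSup.1 this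
        exact mem_iUnion.2 ⟨⟨V, hV⟩, hx⟩) (by
        intro V W
        obtain ⟨Z, hZ, k1, k2⟩ := hd _ V.2 _ W.2
        exact ⟨⟨Z, hZ⟩, k1, k2⟩)
    exact ⟨V.1, V.2, top_le_iff.1 fun x _ => hV (mem_univ x)⟩
  have key : ∀ F : Set (Opens X), IsOpen[upperTop (Opens X)] F → ⊤ ∈ F →
      ∃ T : Set X, T.Finite ∧ ∀ V : Opens X, T ⊆ V → V ∈ F := by
    intro F hF
    induction hF with
    | basic s hs =>
      obtain ⟨W, rfl⟩ := hs
      intro ht
      obtain ⟨x, -, hx⟩ := SetLike.not_le_iff_exists.1 (show ¬ (⊤ : Opens X) ≤ W from ht)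
      exact ⟨{x}, finite_singleton x, fun V hV hle => hx (hle (hV rfl))⟩
    | univ => exact fun _ => ⟨∅, finite_empty, fun _ _ => mem_univ _⟩
    | inter s t _ _ h1 h2 =>
      intro ht
      obtain ⟨T, a1, a2⟩ := h1 ht.1
      obtain ⟨T', b1, b2⟩ := h2 ht.2
      exact ⟨T ∪ T', a1.union b1, fun V hV =>
        ⟨a2 V (subset_union_left.trans hV), b2 V (subset_union_right.trans hV)⟩⟩
    | sUnion S _ hS =>
      rintro ⟨s, hs, ht⟩
      obtain ⟨T, a1, a2⟩ := hS s hs ht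
      exact ⟨T, a1, fun V hV => ⟨s, hs, a2 V hV⟩⟩
  obtain ⟨T, a1, a2⟩ := key _ h1 rfl
  obtain ⟨x, hx⟩ := a1.exists_notMem
  have : (⟨{x}ᶜ, isOpen_compl_singleton⟩ : Opens X) = ⊤ :=
    a2 _ fun y hy h' => hx (mem_singleton_iff.1 h' ▸ hy)
  have h2 : x ∈ (⟨{x}ᶜ, isOpen_compl_singleton⟩ : Opens X) := by
    rw [this]
    trivial
  exact h2 rfl

theorem result : ∃ (X : Type) (_ : TopologicalSpace X),
    T0Space X ∧ CoConsonant (Smyth X) ∧ ¬ CoConsonant X :=
  ⟨ℕ → Bool, inferInstance, inferInstance, smyth_co _, not_co _⟩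

end Pool.Agent.Results.MP_dd3b7d_gt.Counterexample
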